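import Pool.Agent.helper36.YB.Spec

set_option autoImplicit false

/-!
# Project yb, row PRX: the prime elements with a Hecke character (hyperbola method)
-/

open Finset
open Pool.Agent.FI Pool.Agent.HK Pool.Agent.BP
open Pool.Agent.CH (nit rgh ll2)
open Pool.Agent.SK (tr0 Th)

noncomputable section

namespace Pool.Agent.YB

/-! ## The hyperbola method -/

private lemma PRX_aux (F : ℕ → ℕ → ℂ) (x s : ℕ) (hs : s ≤ x) :
    ∑ a ∈ Ioc 0 x, ∑ b ∈ Ioc 0 x, (if a * b ≤ x ∧ a ≤ s then F a b else 0)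
      = ∑ a ∈ Ioc 0 s, ∑ b ∈ Ioc 0 (x / a), F a b := by
  have h1 : ∀ a ∈ Ioc 0 x, ∑ b ∈ Ioc 0 x, (if a * b ≤ x ∧ a ≤ s then F a b else 0)
      = if a ≤ s then ∑ b ∈ Ioc 0 (x / a), F a b else 0 := by
    intro a ha
    rw [mem_Ioc] at ha
    split_ifs with h
    · rw [← sum_filter]
      refine sum_congr ?_ fun _ _ => rfl
      ext b
      simp only [mem_filter, mem_Ioc, and_true, h]
      rw [Nat.le_div_iff_mul_le (by omega), mul_comm b a]
      constructor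
      · rintro ⟨⟨h2, h3⟩, h4⟩
        exact ⟨h2, h4⟩
      · rintro ⟨h2, h3⟩
        exact ⟨⟨h2, le_trans (Nat.le_mul_of_pos_left b (by omega)) h3⟩, h3⟩
    · exact sum_eq_zero fun b _ => if_neg fun h2 => h h2.2
  rw [sum_congr rfl h1, ← sum_filter]
  refine sum_congr ?_ fun _ _ => rfl
  ext a
  simp only [mem_filter, mem_Ioc]
  omega

private lemma PRX_hyp (f g : ArithmeticFunction ℂ) (x s : ℕ) (hs : s * s ≤ x)
    (hs' : x < (s + 1) * (s + 1)) :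
    ∑ n ∈ Ioc 0 x, (f * g) n = ∑ a ∈ Ioc 0 s, f a * ∑ b ∈ Ioc 0 (x / a), g b
      + ∑ b ∈ Ioc 0 s, g b * ∑ a ∈ Ioc 0 (x / b), f a
      - (∑ a ∈ Ioc 0 s, f a) * ∑ b ∈ Ioc 0 s, g b := by
  have hsx : s ≤ x := le_trans (Nat.le_mul_self s) hs
  have h0 : ∑ n ∈ Ioc 0 x, (f * g) n
      = ∑ a ∈ Ioc 0 x, ∑ b ∈ Ioc 0 x, if a * b ≤ x then f a * g b else 0 := by
    have := ArithmeticFunction.sum_Ioc_mul_eq_sum_prod_filter f g x
    rw [sum_filter, sum_product] at this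
    exact this
  have h1 : ∀ a ∈ Ioc 0 x, ∀ b ∈ Ioc 0 x, (if a * b ≤ x then f a * g b else 0)
      = (if a * b ≤ x ∧ a ≤ s then f a * g b else 0) + (if b * a ≤ x ∧ b ≤ s then f a * g b else 0)
        - (if a ≤ s ∧ b ≤ s then f a * g b else 0) := by
    intro a _ b _
    rw [mul_comm b a]
    by_cases h2 : a ≤ s <;> by_cases h3 : b ≤ s
    · have h4 : a * b ≤ x := le_trans (Nat.mul_le_mul h2 h3) hs
      simp [h2, h3, h4]
    · simp [h2, h3]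
    · simp [h2, h3]
    · have h4 : ¬ a * b ≤ x := by
        have := Nat.mul_le_mul (show s + 1 ≤ a by omega) (show s + 1 ≤ b by omega)
        omega
      simp [h2, h3, h4]
  rw [h0, sum_congr rfl fun a ha => sum_congr rfl fun b hb => h1 a ha b hb]
  simp only [sum_add_distrib, sum_sub_distrib]
  rw [PRX_aux (fun a b => f a * g b) x s hsx, sum_comm,
    show ∑ b ∈ Ioc 0 x, ∑ a ∈ Ioc 0 x, (if b * a ≤ x ∧ b ≤ s then f a * g b else 0)
      = ∑ b ∈ Ioc 0 s, ∑ a ∈ Ioc 0 (x / b), f a * g b from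
      PRX_aux (fun b a => f a * g b) x s hsx]
  have h2 : ∑ a ∈ Ioc 0 x, ∑ b ∈ Ioc 0 x, (if a ≤ s ∧ b ≤ s then f a * g b else 0)
      = (∑ a ∈ Ioc 0 s, f a) * ∑ b ∈ Ioc 0 s, g b := by
    rw [sum_mul_sum]
    have h3 : (Ioc 0 x).filter (fun a => a ≤ s) = Ioc 0 s := by
      ext a
      simp only [mem_filter, mem_Ioc]
      omega
    rw [← h3, sum_filter]
    refine sum_congr rfl fun a _ => ?_
    by_cases h4 : a ≤ s
    · simp only [h4, true_and, if_true]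
      rw [sum_filter]
    · simp [h4]
  rw [h2]
  congr 2
  · exact sum_congr rfl fun a _ => by rw [mul_sum]
  · exact sum_congr rfl fun b _ => by
      rw [mul_sum]
      exact sum_congr rfl fun a _ => by ring

/-! ## Arithmetic functions -/

private def PRX_A (g : ℕ → ℂ) (h : g 0 = 0) : ArithmeticFunction ℂ := ⟨g, h⟩

private lemma PRX_cv (g h : ℕ → ℂ) (hg : g 0 = 0) (hh : h 0 = 0) (n : ℕ) :
    (PRX_A g hg * PRX_A h hh) n = cv g h n := by
  rw [ArithmeticFunction.mul_apply]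
  rfl

private lemma PRX_mg0 (g : ℕ → ℂ) : mg g 0 = 0 := by simp [mg]

private lemma PRX_cv0 (g h : ℕ → ℂ) : cv g h 0 = 0 := by simp [cv]

private lemma PRX_inv (g : ℕ → ℂ) (hg : CM g) : PRX_A (mg g) (PRX_mg0 g) * PRX_A g hg.1 = 1 := by
  ext n
  rw [ArithmeticFunction.mul_apply]
  have h1 : ∀ d ∈ n.divisorsAntidiagonal, PRX_A (mg g) (PRX_mg0 g) d.1 * PRX_A g hg.1 d.2 =
      g n * ((ArithmeticFunction.moebius d.1 : ℂ) * ((ArithmeticFunction.zeta d.2 : ℕ) : ℂ)) := by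
    intro d hd
    obtain ⟨h2, h3⟩ := Nat.mem_divisorsAntidiagonal.1 hd
    have h4 : d.2 ≠ 0 := by
      rintro h
      rw [h, mul_zero] at h2
      exact h3 h2.symm
    show (ArithmeticFunction.moebius d.1 : ℂ) * g d.1 * g d.2 = _
    rw [← h2, hg.2.2.1, ArithmeticFunction.zeta_apply_ne h4]
    push_cast
    ring
  rw [sum_congr rfl h1, ← mul_sum]
  have h2 := congrArg (fun f : ArithmeticFunction ℂ => f n) (ArithmeticFunction.coe_moebius_mul_coe_zeta (R := ℂ))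
  simp only [ArithmeticFunction.mul_apply] at h2
  have h3 : ∑ x ∈ n.divisorsAntidiagonal, ((ArithmeticFunction.moebius x.1 : ℂ) * ((ArithmeticFunction.zeta x.2 : ℕ) : ℂ)) =
      (1 : ArithmeticFunction ℂ) n := h2
  rw [h3, ArithmeticFunction.one_apply]
  split_ifs with h
  · rw [h, hg.2.1, mul_one]
  · rw [mul_zero]

private lemma PRX_LG0 (g h : ℕ → ℂ) : LG g h 0 = 0 := by simp [LG]

/-- `M * (F log) = LG` -/
private lemma PRX_LG (hLGC : LGC_stmt) (g h : ℕ → ℂ) (hg : CM g) (hh : CM h) (n : ℕ) :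
    ∑ d ∈ n.divisorsAntidiagonal, cv (mg g) (mg h) d.1 * (cv g h d.2 * (Real.log d.2 : ℂ)) = LG g h n := by
  have e1 : PRX_A (cv (mg g) (mg h)) (PRX_cv0 _ _) = PRX_A (mg g) (PRX_mg0 g) * PRX_A (mg h) (PRX_mg0 h) := by
    ext n
    rw [PRX_cv]
    rfl
  have e2 : PRX_A (fun n => cv g h n * (Real.log n : ℂ)) (by simp) =
      PRX_A (LG g h) (PRX_LG0 g h) * (PRX_A g hg.1 * PRX_A h hh.1) := by
    ext n
    rw [ArithmeticFunction.mul_apply]
    refine (hLGC g h hg hh n).trans (sum_congr rfl fun d _ => ?_)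
    rw [PRX_cv]
    rfl
  have e3 : PRX_A (cv (mg g) (mg h)) (PRX_cv0 _ _) * PRX_A (fun n => cv g h n * (Real.log n : ℂ)) (by simp) =
      PRX_A (LG g h) (PRX_LG0 g h) := by
    rw [e1, e2]
    calc PRX_A (mg g) (PRX_mg0 g) * PRX_A (mg h) (PRX_mg0 h) * (PRX_A (LG g h) (PRX_LG0 g h) * (PRX_A g hg.1 * PRX_A h hh.1))
        = (PRX_A (mg g) (PRX_mg0 g) * PRX_A g hg.1) * (PRX_A (mg h) (PRX_mg0 h) * PRX_A h hh.1) * PRX_A (LG g h) (PRX_LG0 g h) := by ring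
      _ = PRX_A (LG g h) (PRX_LG0 g h) := by rw [PRX_inv g hg, PRX_inv h hh, one_mul, one_mul]
  have e4 := congrArg (fun f : ArithmeticFunction ℂ => f n) e3
  simp only [ArithmeticFunction.mul_apply] at e4
  exact e4

private lemma PRX_nit (t : ℝ) (a b : ℕ) (ha : a ≠ 0) (hb : b ≠ 0) : nit t ((a * b : ℕ) : ℝ) = nit t a * nit t b := by
  have h1 : (a : ℝ) ≠ 0 := by exact_mod_cast ha
  have h2 : (b : ℝ) ≠ 0 := by exact_mod_cast hb
  unfold CH.nit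
  rw [← Complex.exp_add]
  congr 1
  push_cast
  rw [Real.log_mul h1 h2]
  push_cast
  ring

private lemma PRX_nitn (t x : ℝ) : ‖nit t x‖ = 1 := by
  unfold CH.nit
  exact Complex.norm_exp_ofReal_mul_I _

private lemma PRX_tau (u v : ℕ → ℂ) (hu : ∀ n, ‖u n‖ ≤ 1) (hv : ∀ n, ‖v n‖ ≤ 1) (y : ℕ) :
    ∑ n ∈ Ioc 0 y, ‖cv u v n‖ / n ≤ (1 + Real.log y) ^ 2 := by
  let f : ArithmeticFunction ℝ := ⟨fun n => 1 / (n : ℝ), by simp⟩
  have h1 : ∀ n ∈ Ioc 0 y, ‖cv u v n‖ / n ≤ (f * f) n := by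
    intro n hn
    rw [mem_Ioc] at hn
    rw [ArithmeticFunction.mul_apply]
    unfold cv
    rw [div_le_iff₀ (by exact_mod_cast hn.1)]
    refine (norm_sum_le _ _).trans ?_
    rw [sum_mul]
    refine sum_le_sum fun d hd => ?_
    obtain ⟨h2, h3⟩ := Nat.mem_divisorsAntidiagonal.1 hd
    have h4 : d.1 ≠ 0 := by
      rintro h
      rw [h, zero_mul] at h2
      exact h3 h2.symm
    have h5 : d.2 ≠ 0 := by
      rintro h
      rw [h, mul_zero] at h2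
      exact h3 h2.symm
    have h4' : (d.1 : ℝ) ≠ 0 := by exact_mod_cast h4
    have h5' : (d.2 : ℝ) ≠ 0 := by exact_mod_cast h5
    show ‖u d.1 * v d.2‖ ≤ 1 / (d.1 : ℝ) * (1 / (d.2 : ℝ)) * n
    rw [← h2, norm_mul]
    push_cast
    have e : 1 / (d.1 : ℝ) * (1 / (d.2 : ℝ)) * ((d.1 : ℝ) * d.2) = 1 := by field_simp
    rw [e]
    exact mul_le_one₀ (hu _) (norm_nonneg _) (hv _)
  refine (sum_le_sum h1).trans ?_
  rw [ArithmeticFunction.sum_Ioc_mul_eq_sum_prod_filter]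
  have h2 : ∑ x ∈ Ioc 0 y ×ˢ Ioc 0 y with x.1 * x.2 ≤ y, f x.1 * f x.2 ≤ ∑ x ∈ Ioc 0 y ×ˢ Ioc 0 y, f x.1 * f x.2 := by
    refine sum_le_sum_of_subset_of_nonneg (filter_subset _ _) fun x _ _ => ?_
    show 0 ≤ 1 / (x.1 : ℝ) * (1 / (x.2 : ℝ))
    positivity
  refine h2.trans ?_
  rw [sum_product, ← sum_mul_sum, ← sq]
  have h3 : ∑ n ∈ Ioc 0 y, f n ≤ 1 + Real.log y := by
    have h4 := harmonic_le_one_add_log y
    have h5 : ((harmonic y : ℚ) : ℝ) = ∑ n ∈ Ioc 0 y, f n := by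
      rw [harmonic_eq_sum_Icc]
      push_cast
      refine sum_congr rfl fun n _ => ?_
      show (n : ℝ)⁻¹ = 1 / (n : ℝ)
      rw [one_div]
    rw [← h5]
    exact h4
  have h6 : 0 ≤ ∑ n ∈ Ioc 0 y, f n := sum_nonneg fun n _ => by
    show 0 ≤ 1 / (n : ℝ)
    positivity
  exact pow_le_pow_left₀ h6 h3 2

private lemma PRX_mgn (g : ℕ → ℂ) (hg : CM g) (n : ℕ) : ‖mg g n‖ ≤ 1 := by
  unfold mg
  rw [norm_mul]
  refine mul_le_one₀ ?_ (norm_nonneg _) (hg.2.2.2 n)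
  rw [Complex.norm_intCast]
  exact_mod_cast ArithmeticFunction.abs_moebius_le_one

/-- Abel summation with the logarithm -/
private lemma PRX_abel (f : ℕ → ℂ) (u : ℕ) (hu : 1 ≤ u) :
    ∑ b ∈ Ioc 0 u, f b * (Real.log b : ℂ) = (∑ b ∈ Ioc 0 u, f b) * (Real.log u : ℂ) -
      ∑ v ∈ Ico 1 u, (∑ b ∈ Ioc 0 v, f b) * ((Real.log ((v + 1 : ℕ) : ℝ) - Real.log v : ℝ) : ℂ) := by
  induction u, hu using Nat.le_induction with
  | base => simp
  | succ u hu ih =>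
    rw [sum_Ioc_succ_top (Nat.zero_le u), ih, sum_Ico_succ_top hu, sum_Ioc_succ_top (Nat.zero_le u)]
    push_cast
    ring

private lemma PRX_abel_le (f : ℕ → ℂ) (u : ℕ) (hu : 1 ≤ u) (E ε : ℝ) (hE : 0 ≤ E) (hε : 0 ≤ ε)
    (h1 : ∀ v : ℕ, ‖∑ b ∈ Ioc 0 v, f b‖ ≤ 25 * v)
    (h2 : ∀ v : ℕ, E ≤ v → ‖∑ b ∈ Ioc 0 v, f b‖ ≤ ε * v) (hEu : E ≤ u) :
    ‖∑ b ∈ Ioc 0 u, f b * (Real.log b : ℂ)‖ ≤ ε * u * (Real.log u + 1) + 25 * E := by
  classical
  have hu0 : (1 : ℝ) ≤ u := by exact_mod_cast hu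
  have hlog : 0 ≤ Real.log u := Real.log_nonneg hu0
  rw [PRX_abel f u hu]
  refine (norm_sub_le _ _).trans ?_
  have a1 : ‖(∑ b ∈ Ioc 0 u, f b) * (Real.log u : ℂ)‖ ≤ ε * u * Real.log u := by
    rw [norm_mul, Complex.norm_real, Real.norm_of_nonneg hlog]
    exact mul_le_mul_of_nonneg_right (h2 u hEu) hlog
  have a2 : ‖∑ v ∈ Ico 1 u, (∑ b ∈ Ioc 0 v, f b) * ((Real.log ((v + 1 : ℕ) : ℝ) - Real.log v : ℝ) : ℂ)‖ ≤ ε * u + 25 * E := by
    refine (norm_sum_le _ _).trans ?_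
    have b1 : ∀ v ∈ Ico 1 u, ‖(∑ b ∈ Ioc 0 v, f b) * ((Real.log ((v + 1 : ℕ) : ℝ) - Real.log v : ℝ) : ℂ)‖ ≤
        ε + if (v : ℝ) < E then 25 else 0 := by
      intro v hv
      rw [mem_Ico] at hv
      have hv0 : (0 : ℝ) < v := by exact_mod_cast hv.1
      have c1 : Real.log ((v + 1 : ℕ) : ℝ) - Real.log v ≤ 1 / v := by
        rw [← Real.log_div (by positivity) hv0.ne']
        refine (Real.log_le_sub_one_of_pos (by positivity)).trans (le_of_eq ?_)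
        push_cast
        field_simp
        ring
      have c0 : 0 ≤ Real.log ((v + 1 : ℕ) : ℝ) - Real.log v := by
        rw [sub_nonneg]
        refine Real.log_le_log hv0 ?_
        push_cast
        linarith
      rw [norm_mul, Complex.norm_real, Real.norm_of_nonneg c0]
      by_cases h : (v : ℝ) < E
      · rw [if_pos h]
        calc ‖∑ b ∈ Ioc 0 v, f b‖ * (Real.log ((v + 1 : ℕ) : ℝ) - Real.log v) ≤ (25 * v) * (1 / v) :=
              mul_le_mul (h1 v) c1 c0 (by positivity)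
          _ = 25 := by field_simp
          _ ≤ ε + 25 := by linarith
      · rw [if_neg h, add_zero]
        push Not at h
        calc ‖∑ b ∈ Ioc 0 v, f b‖ * (Real.log ((v + 1 : ℕ) : ℝ) - Real.log v) ≤ (ε * v) * (1 / v) :=
              mul_le_mul (h2 v h) c1 c0 (by positivity)
          _ = ε := by field_simp
    refine (sum_le_sum b1).trans ?_
    rw [sum_add_distrib, sum_const, Nat.card_Ico, nsmul_eq_mul, ← sum_filter, sum_const, nsmul_eq_mul]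
    have b2 : (((u - 1 : ℕ) : ℕ) : ℝ) ≤ u := by exact_mod_cast Nat.sub_le u 1
    have b3 : ((#{v ∈ Ico 1 u | ((v : ℕ) : ℝ) < E} : ℕ) : ℝ) ≤ E := by
      have c : #{v ∈ Ico 1 u | ((v : ℕ) : ℝ) < E} ≤ #(Ioc 0 ⌊E⌋₊) := by
        refine card_le_card fun v hv => ?_
        rw [mem_filter, mem_Ico] at hv
        exact mem_Ioc.2 ⟨hv.1.1, Nat.le_floor hv.2.le⟩
      rw [Nat.card_Ioc, Nat.sub_zero] at c
      exact (by exact_mod_cast c : ((#{v ∈ Ico 1 u | ((v : ℕ) : ℝ) < E} : ℕ) : ℝ) ≤ (⌊E⌋₊ : ℝ)).trans (Nat.floor_le hE)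
    nlinarith [mul_le_mul_of_nonneg_right b2 hε]
  calc _ ≤ ε * u * Real.log u + (ε * u + 25 * E) := add_le_add a1 a2
    _ = ε * u * (Real.log u + 1) + 25 * E := by ring

/-- the sum of `LG` from the bounds for the two factors -/
private lemma PRX_sum (hLGC : LGC_stmt) (g h : ℕ → ℂ) (hg : CM g) (hh : CM h) (t : ℝ) (x s : ℕ) (hs : s * s ≤ x)
    (hs' : x < (s + 1) * (s + 1)) (hs1 : 1 ≤ s) (L a b : ℝ) (hL : Real.log x ≤ L) (ha : 0 ≤ a) (hb : 0 ≤ b)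
    (hA : ∀ u : ℕ, s ≤ u → u ≤ x → ‖∑ n ∈ Ioc 0 u, cv (mg g) (mg h) n * nit t n‖ ≤ a * u)
    (hB : ∀ u : ℕ, s ≤ u → u ≤ x → ‖∑ n ∈ Ioc 0 u, cv g h n * (Real.log n : ℂ) * nit t n‖ ≤ b * u) :
    ‖∑ n ∈ Ioc 0 x, LG g h n * nit t n‖ ≤ x * (b * (1 + L) ^ 2 + a * L * (1 + L) ^ 2 + a * b) := by
  have hsx : s ≤ x := le_trans (Nat.le_mul_self s) hs
  have hx1 : 1 ≤ x := hs1.trans hsx
  have hlogs : Real.log s ≤ L := (Real.log_le_log (by exact_mod_cast hs1) (by exact_mod_cast hsx)).trans hL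
  have hlogs0 : 0 ≤ Real.log s := Real.log_nonneg (by exact_mod_cast hs1)
  let f : ArithmeticFunction ℂ := ⟨fun n => cv (mg g) (mg h) n * nit t n, by simp [PRX_cv0]⟩
  let k : ArithmeticFunction ℂ := ⟨fun n => cv g h n * (Real.log n : ℂ) * nit t n, by simp [PRX_cv0]⟩
  have e : ∀ n ∈ Ioc 0 x, LG g h n * nit t n = (f * k) n := by
    intro n hn
    rw [ArithmeticFunction.mul_apply, ← PRX_LG hLGC g h hg hh n, sum_mul]
    refine sum_congr rfl fun d hd => ?_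
    obtain ⟨h2, h3⟩ := Nat.mem_divisorsAntidiagonal.1 hd
    have h4 : d.1 ≠ 0 := by
      rintro h
      rw [h, zero_mul] at h2
      exact h3 h2.symm
    have h5 : d.2 ≠ 0 := by
      rintro h
      rw [h, mul_zero] at h2
      exact h3 h2.symm
    have h6 : nit t n = nit t d.1 * nit t d.2 := by rw [← PRX_nit t d.1 d.2 h4 h5, h2]
    show _ = (cv (mg g) (mg h) d.1 * nit t d.1) * (cv g h d.2 * (Real.log d.2 : ℂ) * nit t d.2)
    rw [h6]
    ring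
  have hdiv : ∀ c : ℕ, 1 ≤ c → c ≤ s → s ≤ x / c ∧ x / c ≤ x := by
    intro c hc1 hc2
    refine ⟨(Nat.le_div_iff_mul_le hc1).2 (le_trans (Nat.mul_le_mul_left s hc2) hs), Nat.div_le_self _ _⟩
  rw [sum_congr rfl e, PRX_hyp f k x s hs hs']
  refine (norm_sub_le _ _).trans ?_
  have hsq : ∀ u v : ℕ → ℂ, (∀ n, ‖u n‖ ≤ 1) → (∀ n, ‖v n‖ ≤ 1) → ∑ n ∈ Ioc 0 s, ‖cv u v n‖ / n ≤ (1 + L) ^ 2 := by
    intro u v hu hv
    refine (PRX_tau u v hu hv s).trans ?_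
    exact pow_le_pow_left₀ (by linarith) (by linarith) 2
  have t1 : ‖∑ a ∈ Ioc 0 s, f a * ∑ b ∈ Ioc 0 (x / a), k b‖ ≤ x * (b * (1 + L) ^ 2) := by
    refine (norm_sum_le _ _).trans ?_
    have c1 : ∀ c ∈ Ioc 0 s, ‖f c * ∑ b ∈ Ioc 0 (x / c), k b‖ ≤ (x * b) * (‖cv (mg g) (mg h) c‖ / c) := by
      intro c hc
      rw [mem_Ioc] at hc
      obtain ⟨d1, d2⟩ := hdiv c hc.1 hc.2
      have hc0 : (0 : ℝ) < c := by exact_mod_cast hc.1
      rw [norm_mul]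
      have d3 : ‖f c‖ = ‖cv (mg g) (mg h) c‖ := by
        show ‖cv (mg g) (mg h) c * nit t c‖ = _
        rw [norm_mul, PRX_nitn, mul_one]
      have d4 : ‖∑ b ∈ Ioc 0 (x / c), k b‖ ≤ b * (x / c) :=
        (hB (x / c) d1 d2).trans (mul_le_mul_of_nonneg_left Nat.cast_div_le hb)
      rw [d3]
      calc ‖cv (mg g) (mg h) c‖ * ‖∑ b ∈ Ioc 0 (x / c), k b‖ ≤ ‖cv (mg g) (mg h) c‖ * (b * (x / c)) :=
            mul_le_mul_of_nonneg_left d4 (norm_nonneg _)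
        _ = (x * b) * (‖cv (mg g) (mg h) c‖ / c) := by ring
    refine (sum_le_sum c1).trans ?_
    rw [← mul_sum]
    calc (x * b) * ∑ c ∈ Ioc 0 s, ‖cv (mg g) (mg h) c‖ / c ≤ (x * b) * (1 + L) ^ 2 :=
          mul_le_mul_of_nonneg_left (hsq _ _ (PRX_mgn g hg) (PRX_mgn h hh)) (by positivity)
      _ = x * (b * (1 + L) ^ 2) := by ring
  have t2 : ‖∑ b ∈ Ioc 0 s, k b * ∑ a ∈ Ioc 0 (x / b), f a‖ ≤ x * (a * L * (1 + L) ^ 2) := by
    refine (norm_sum_le _ _).trans ?_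
    have c1 : ∀ c ∈ Ioc 0 s, ‖k c * ∑ a ∈ Ioc 0 (x / c), f a‖ ≤ (x * a * L) * (‖cv g h c‖ / c) := by
      intro c hc
      rw [mem_Ioc] at hc
      obtain ⟨d1, d2⟩ := hdiv c hc.1 hc.2
      have hc0 : (0 : ℝ) < c := by exact_mod_cast hc.1
      have hc1 : (1 : ℝ) ≤ c := by exact_mod_cast hc.1
      have hlc : Real.log c ≤ L := (Real.log_le_log hc0 (by exact_mod_cast hc.2)).trans hlogs
      have hlc0 : 0 ≤ Real.log c := Real.log_nonneg hc1
      rw [norm_mul]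
      have d3 : ‖k c‖ ≤ ‖cv g h c‖ * L := by
        show ‖cv g h c * (Real.log c : ℂ) * nit t c‖ ≤ _
        rw [norm_mul, PRX_nitn, mul_one, norm_mul, Complex.norm_real, Real.norm_of_nonneg hlc0]
        exact mul_le_mul_of_nonneg_left hlc (norm_nonneg _)
      have d4 : ‖∑ a ∈ Ioc 0 (x / c), f a‖ ≤ a * (x / c) :=
        (hA (x / c) d1 d2).trans (mul_le_mul_of_nonneg_left Nat.cast_div_le ha)
      calc ‖k c‖ * ‖∑ a ∈ Ioc 0 (x / c), f a‖ ≤ (‖cv g h c‖ * L) * (a * (x / c)) :=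
            mul_le_mul d3 d4 (norm_nonneg _) (mul_nonneg (norm_nonneg _) (hlc0.trans hlc))
        _ = (x * a * L) * (‖cv g h c‖ / c) := by ring
    refine (sum_le_sum c1).trans ?_
    rw [← mul_sum]
    have hL0 : 0 ≤ L := hlogs0.trans hlogs
    calc (x * a * L) * ∑ c ∈ Ioc 0 s, ‖cv g h c‖ / c ≤ (x * a * L) * (1 + L) ^ 2 :=
          mul_le_mul_of_nonneg_left (hsq _ _ hg.2.2.2 hh.2.2.2) (by positivity)
      _ = x * (a * L * (1 + L) ^ 2) := by ring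
  have t3 : ‖(∑ a ∈ Ioc 0 s, f a) * ∑ b ∈ Ioc 0 s, k b‖ ≤ x * (a * b) := by
    rw [norm_mul]
    have d1 : ‖∑ a ∈ Ioc 0 s, f a‖ ≤ a * s := hA s le_rfl hsx
    have d2 : ‖∑ b ∈ Ioc 0 s, k b‖ ≤ b * s := hB s le_rfl hsx
    have d3 : (s : ℝ) * s ≤ x := by exact_mod_cast hs
    calc _ ≤ (a * s) * (b * s) := mul_le_mul d1 d2 (norm_nonneg _) (by positivity)
      _ = (a * b) * (s * s) := by ring
      _ ≤ (a * b) * x := mul_le_mul_of_nonneg_left d3 (by positivity)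
      _ = x * (a * b) := by ring
  calc _ ≤ (‖∑ a ∈ Ioc 0 s, f a * ∑ b ∈ Ioc 0 (x / a), k b‖ + ‖∑ b ∈ Ioc 0 s, k b * ∑ a ∈ Ioc 0 (x / b), f a‖) +
        ‖(∑ a ∈ Ioc 0 s, f a) * ∑ b ∈ Ioc 0 s, k b‖ := add_le_add (norm_add_le _ _) le_rfl
    _ ≤ x * (b * (1 + L) ^ 2) + x * (a * L * (1 + L) ^ 2) + x * (a * b) := add_le_add (add_le_add t1 t2) t3
    _ = x * (b * (1 + L) ^ 2 + a * L * (1 + L) ^ 2 + a * b) := by ring

private lemma PRX_cvp (g h : ℕ → ℂ) (hg : CM g) (hh : CM h) (p : ℕ) (hp : p.Prime) : cv g h p = g p + h p := by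
  unfold cv
  rw [Nat.sum_divisorsAntidiagonal (fun a b => g a * h b), hp.sum_divisors, Nat.div_self hp.pos, Nat.div_one, hg.2.1, hh.2.1]
  ring

/-- the prime powers -/
private lemma PRX_pp (g h : ℕ → ℂ) (hg : CM g) (hh : CM h) (t : ℝ) (x : ℕ) (hx : 1 ≤ x) :
    ‖∑ n ∈ Ioc 0 x, LG g h n * nit t n - ∑ p ∈ Ioc 0 x with p.Prime, (Real.log p : ℂ) * (cv g h p * nit t p)‖ ≤
      4 * √(x : ℝ) * Real.log x := by
  have h1 : ∑ p ∈ Ioc 0 x with p.Prime, (Real.log p : ℂ) * (cv g h p * nit t p) = ∑ p ∈ Ioc 0 x with p.Prime, LG g h p * nit t p := by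
    refine sum_congr rfl fun p hp => ?_
    rw [mem_filter] at hp
    rw [PRX_cvp g h hg hh p hp.2]
    unfold LG
    rw [ArithmeticFunction.vonMangoldt_apply_prime hp.2]
    ring
  rw [h1, ← sum_filter_add_sum_filter_not (Ioc 0 x) (fun p => p.Prime) (fun n => LG g h n * nit t n), add_sub_cancel_left]
  refine (norm_sum_le _ _).trans ?_
  have h2 : ∀ n ∈ (Ioc 0 x).filter (fun p => ¬ p.Prime), ‖LG g h n * nit t n‖ ≤ 2 * ArithmeticFunction.vonMangoldt n := by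
    intro n _
    rw [norm_mul, PRX_nitn, mul_one]
    unfold LG
    rw [norm_mul, Complex.norm_real, Real.norm_of_nonneg ArithmeticFunction.vonMangoldt_nonneg, mul_comm]
    refine mul_le_mul_of_nonneg_right ?_ ArithmeticFunction.vonMangoldt_nonneg
    exact (norm_add_le _ _).trans (by linarith [hg.2.2.2 n, hh.2.2.2 n])
  refine (sum_le_sum h2).trans ?_
  rw [← mul_sum]
  have h3 := Chebyshev.psi_sub_theta_eq_sum_not_prime (x : ℝ)
  rw [Nat.floor_natCast] at h3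
  rw [← h3]
  have h4 := Chebyshev.psi_sub_theta_le (x := (x : ℝ)) (by exact_mod_cast hx)
  linarith

private lemma PRX_rf (Ψ : ℤ × ℤ → ℂ) (t : ℝ) (n : ℕ) : rf (fun z => Ψ z * nit t (nn z)) n = rf Ψ n * nit t n := by
  unfold rf
  rw [sum_mul]
  refine sum_congr rfl fun z hz => ?_
  rw [mem_filter] at hz
  show Ψ z * nit t ((nn z : ℕ) : ℝ) = Ψ z * nit t ((n : ℕ) : ℝ)
  rw [hz.2]

private lemma PRX_num (L : ℝ) (l1 : 100 ≤ L) :
    (L + 2) * (1 + L) ^ 2 + L * L * (1 + L) ^ 2 + L * (L + 2) + L ≤ L ^ 6 := by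
  have hLpos : 0 < L := by linarith
  have i1 : (1 + L) ^ 2 ≤ 2 * L ^ 2 := by nlinarith
  have i2 : L + 2 ≤ 2 * L := by linarith
  have i3 : (L + 2) * (1 + L) ^ 2 ≤ 2 * L * (2 * L ^ 2) := mul_le_mul i2 i1 (by positivity) (by positivity)
  have i4 : L * L * (1 + L) ^ 2 ≤ L * L * (2 * L ^ 2) := mul_le_mul_of_nonneg_left i1 (by positivity)
  have i5 : L * (L + 2) ≤ L * (2 * L) := mul_le_mul_of_nonneg_left i2 hLpos.le
  have q2 : L ≤ L ^ 2 := by nlinarith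
  have q3 : L ^ 2 ≤ L ^ 3 := pow_le_pow_right₀ (by linarith) (by norm_num)
  have q4 : L ^ 3 ≤ L ^ 4 := pow_le_pow_right₀ (by linarith) (by norm_num)
  have q5 : L ^ 4 ≤ L ^ 5 := pow_le_pow_right₀ (by linarith) (by norm_num)
  have q6 : 100 * L ^ 5 ≤ L ^ 6 := by
    rw [pow_succ L 5, mul_comm 100]
    exact mul_le_mul_of_nonneg_left l1 (by positivity)
  have k1 : 2 * L * (2 * L ^ 2) = 4 * L ^ 3 := by ring
  have k2 : L * L * (2 * L ^ 2) = 2 * L ^ 4 := by ring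
  have k3 : L * (2 * L) = 2 * L ^ 2 := by ring
  rw [k1] at i3
  rw [k2] at i4
  rw [k3] at i5
  have j6 : 0 < L ^ 5 := by positivity
  linarith

private lemma PRX_fin (X S E D L : ℝ) (A : ℕ) (hSS : S * S = X) (hS0 : 0 < S) (hE1 : 1 ≤ E) (hD : D = L ^ (A + 6)) (hD1 : 1 ≤ D)
    (hED : 500 * E * D ≤ S) (l1 : 100 ≤ L) :
    X * (((L + 2) / D) * (1 + L) ^ 2 + L / D * L * (1 + L) ^ 2 + L / D * ((L + 2) / D)) + 4 * S * L ≤ X / L ^ A := by
  have hLpos : 0 < L := by linarith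
  have hD0 : 0 < D := by linarith
  have hX0 : 0 < X := by rw [← hSS]; positivity
  have g2 : 4 * S * L ≤ X / D * L := by
    have h1 : 4 * D ≤ S := by
      have : D ≤ E * D := le_mul_of_one_le_left hD0.le hE1
      linarith
    have h2 : 4 * S ≤ X / D := by
      rw [le_div_iff₀ hD0, ← hSS]
      calc 4 * S * D = S * (4 * D) := by ring
        _ ≤ S * S := mul_le_mul_of_nonneg_left h1 hS0.le
    exact mul_le_mul_of_nonneg_right h2 hLpos.le
  have g3 : L / D * ((L + 2) / D) ≤ L * (L + 2) / D := by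
    rw [div_mul_div_comm]
    exact div_le_div_of_nonneg_left (by positivity) hD0 (le_mul_of_one_le_left hD0.le hD1)
  have g4 : X / L ^ A = X / D * L ^ 6 := by
    rw [hD, pow_add]
    field_simp
  rw [g4]
  have g5 : X * (((L + 2) / D) * (1 + L) ^ 2 + L / D * L * (1 + L) ^ 2 + L / D * ((L + 2) / D)) + 4 * S * L ≤
      X * (((L + 2) / D) * (1 + L) ^ 2 + L / D * L * (1 + L) ^ 2 + L * (L + 2) / D) + X / D * L :=
    add_le_add (mul_le_mul_of_nonneg_left (by linarith) hX0.le) g2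
  refine g5.trans ?_
  have g6 : X * (((L + 2) / D) * (1 + L) ^ 2 + L / D * L * (1 + L) ^ 2 + L * (L + 2) / D) + X / D * L =
      X / D * ((L + 2) * (1 + L) ^ 2 + L * L * (1 + L) ^ 2 + L * (L + 2) + L) := by ring
  rw [g6]
  exact mul_le_mul_of_nonneg_left (PRX_num L l1) (by positivity)

/-- large `L` -/
private lemma PRX_large (A B : ℕ) : ∃ L₀ : ℝ, ∀ L : ℝ, L₀ ≤ L → 100 ≤ L ∧ (3 : ℝ) ^ (A + 6) ≤ L ∧ (3 : ℝ) ^ (B + 1) ≤ L ∧
    500 * Real.exp (L ^ (19 / 20 : ℝ)) * L ^ (A + 6) ≤ Real.exp (L / 2) := by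
  have h1 := (isLittleO_pow_exp_pos_mul_atTop (A + 6) (b := 1 / 4) (by norm_num)).bound (c := 1 / 500) (by norm_num)
  obtain ⟨L₁, h2⟩ := Filter.eventually_atTop.1 h1
  refine ⟨max (max 100 (3 ^ (A + 6))) (max (max (3 ^ (B + 1)) L₁) (8 ^ 20)), fun L hL => ?_⟩
  rw [max_le_iff, max_le_iff, max_le_iff, max_le_iff] at hL
  obtain ⟨⟨a1, a2⟩, ⟨a3, a4⟩, a5⟩ := hL
  refine ⟨a1, a2, a3, ?_⟩
  have hL0 : 0 < L := by linarith
  have b1 := h2 L a4
  rw [Real.norm_of_nonneg (by positivity), Real.norm_of_nonneg (Real.exp_pos _).le] at b1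
  have b2 : L ^ (19 / 20 : ℝ) ≤ L / 8 := by
    have c1 : (8 : ℝ) ≤ L ^ (1 / 20 : ℝ) := by
      calc (8 : ℝ) = ((8 : ℝ) ^ (20 : ℕ)) ^ (1 / 20 : ℝ) := by
            rw [← Real.rpow_natCast, ← Real.rpow_mul (by norm_num)]
            norm_num
        _ ≤ L ^ (1 / 20 : ℝ) := Real.rpow_le_rpow (by norm_num) a5 (by norm_num)
    have c2 : L = L ^ (19 / 20 : ℝ) * L ^ (1 / 20 : ℝ) := by
      rw [← Real.rpow_add hL0]
      norm_num
    have c3 : 0 < L ^ (19 / 20 : ℝ) := Real.rpow_pos_of_pos hL0 _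
    rw [le_div_iff₀ (by norm_num)]
    calc L ^ (19 / 20 : ℝ) * 8 ≤ L ^ (19 / 20 : ℝ) * L ^ (1 / 20 : ℝ) := mul_le_mul_of_nonneg_left c1 c3.le
      _ = L := c2.symm
  have b3 : Real.exp (L ^ (19 / 20 : ℝ)) ≤ Real.exp (L / 8) := Real.exp_le_exp.2 b2
  calc 500 * Real.exp (L ^ (19 / 20 : ℝ)) * L ^ (A + 6) = Real.exp (L ^ (19 / 20 : ℝ)) * (500 * L ^ (A + 6)) := by ring
    _ ≤ Real.exp (L / 8) * Real.exp (1 / 4 * L) := mul_le_mul b3 (by linarith) (by positivity) (Real.exp_pos _).le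
    _ = Real.exp (L / 8 + 1 / 4 * L) := (Real.exp_add _ _).symm
    _ ≤ Real.exp (L / 2) := Real.exp_le_exp.2 (by linarith)

theorem PRX (hMOX : MOX_stmt) (hCTX : CTX_stmt) (hMUX : MUX_stmt) (hTRX : TRX_stmt) (hUXH : UXH_stmt) (hLGC : LGC_stmt) (hSRF : SRF_stmt) (hSIZ : SIZ_stmt) : PRX_stmt := by
  have _ := hSIZ
  intro A B K
  obtain ⟨m₀, hM⟩ := hMOX (A + 6) (B + 1) (3 * K)
  obtain ⟨c₀, hC⟩ := hCTX (A + 6) B K
  obtain ⟨L₀, hl⟩ := PRX_large A B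
  refine ⟨max (max 9 (m₀ * m₀)) (max ⌈c₀⌉₊ ⌈Real.exp L₀⌉₊), fun x hx q hq ξ hξ i₁ i hi₁ hi κ t hinv hnp hκ ht => ?_⟩
  rw [max_le_iff, max_le_iff, max_le_iff] at hx
  obtain ⟨⟨hx9, hxm⟩, hxc, hxL⟩ := hx
  have hxc' : c₀ ≤ (x : ℝ) := (Nat.le_ceil _).trans (by exact_mod_cast hxc)
  have hxL' : Real.exp L₀ ≤ (x : ℝ) := (Nat.le_ceil _).trans (by exact_mod_cast hxL)
  have hx1 : 1 ≤ x := by omega
  have hxr : (1 : ℝ) ≤ x := by exact_mod_cast hx1
  have hx0 : (0 : ℝ) < x := by linarith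
  set L : ℝ := Real.log x with hLdef
  have hL0 : L₀ ≤ L := by
    rw [hLdef, Real.le_log_iff_exp_le hx0]
    exact hxL'
  obtain ⟨l1, l2, l3, l4⟩ := hl L hL0
  have hLpos : 0 < L := by linarith
  set S : ℝ := Real.exp (L / 2) with hS
  have hSS : S * S = x := by
    rw [hS, ← Real.exp_add, add_halves, hLdef, Real.exp_log hx0]
  have hS0 : 0 < S := Real.exp_pos _
  set E : ℝ := Real.exp (L ^ (19 / 20 : ℝ)) with hE
  have hE1 : 1 ≤ E := Real.one_le_exp (Real.rpow_nonneg hLpos.le _)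
  have hdl : Real.exp (CH.dl x) = E := rfl
  set D : ℝ := L ^ (A + 6) with hD
  have hD1 : 1 ≤ D := one_le_pow₀ (by linarith)
  have hD0 : 0 < D := by linarith
  have hED : 500 * E * D ≤ S := l4
  -- the square root
  set s : ℕ := Nat.sqrt x with hs
  have hs1 : s * s ≤ x := Nat.sqrt_le x
  have hs2 : x < (s + 1) * (s + 1) := Nat.lt_succ_sqrt x
  have hs3 : 3 ≤ s := by
    rw [hs, Nat.le_sqrt]
    exact hx9
  have hsm : m₀ ≤ s := by
    rw [hs, Nat.le_sqrt]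
    exact hxm
  have hsS : S < (s : ℝ) + 1 := by
    have h1 : (x : ℝ) < ((s : ℝ) + 1) * ((s : ℝ) + 1) := by exact_mod_cast hs2
    rw [← hSS] at h1
    exact lt_of_mul_self_lt_mul_self₀ (by positivity) h1
  have hS2 : 500 ≤ S := by nlinarith [mul_le_mul hE1 hD1 (by norm_num) (by linarith : (0 : ℝ) ≤ E)]
  have hsS2 : S / 2 ≤ s := by linarith
  have hcube : ∀ u : ℕ, s ≤ u → x ≤ u ^ 3 := by
    intro u hu
    have h1 : (s + 1) * (s + 1) ≤ s ^ 3 := by nlinarith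
    exact hs2.le.trans (h1.trans (Nat.pow_le_pow_left hu 3))
  -- the data
  have hUX : UX q (HX ξ i₁ i κ) := hUXH q ξ i₁ i κ hξ hinv
  set Ψ : ℤ × ℤ → ℂ := HX ξ i₁ i κ with hΨ
  obtain ⟨k₁, k₂, g, h, h₁, h₂, -, -, hg, hh, -, -, -, -, hrf⟩ := hTRX q Ψ hξ.1 hUX
  have hrF : ∀ n : ℕ, 1 ≤ n → rf Ψ n = cv g h n := fun n hn => (hrf n hn).2.1
  have hrM := hMUX q Ψ hξ.1 hUX g h hg hh hrF
  have hΨ1 : ∀ z : ℤ × ℤ, z.1 % 2 = 1 → ‖Ψ z‖ ≤ 1 := by
    intro z hz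
    by_cases hc : Nat.Coprime (nn z) q
    · exact (hUX.2.2.2 z hz hc).le
    · rw [hUX.2.2.1 z hz hc, norm_zero]
      exact zero_le_one
  obtain ⟨srf1, srf2, srf3⟩ := hSRF
  -- the sums of `F`
  have hF1 : ∀ v : ℕ, ∑ n ∈ Ioc 0 v, cv g h n * nit t n = ∑ z ∈ FF v, Ψ z * nit t (nn z) := by
    intro v
    rw [← srf1 (fun z => Ψ z * nit t (nn z)) v]
    refine sum_congr rfl fun n hn => ?_
    rw [mem_Ioc] at hn
    rw [PRX_rf, hrF n hn.1]
  have hF25 : ∀ v : ℕ, ‖∑ n ∈ Ioc 0 v, cv g h n * nit t n‖ ≤ 25 * v := by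
    intro v
    refine (norm_sum_le _ _).trans (le_trans (le_of_eq ?_) (srf2 Ψ hΨ1 v))
    refine sum_congr rfl fun n hn => ?_
    rw [mem_Ioc] at hn
    rw [norm_mul, PRX_nitn, mul_one, hrF n hn.1]
  have hFE : ∀ v : ℕ, E ≤ v → ‖∑ n ∈ Ioc 0 v, cv g h n * nit t n‖ ≤ 1 / D * v := by
    intro v hv
    rw [hF1 v]
    refine (hC x hxc' q hq ξ hξ i₁ i κ t hinv hnp hκ ht v hv).trans (le_of_eq ?_)
    rw [div_mul_eq_mul_div, one_mul]
  have hB : ∀ u : ℕ, s ≤ u → u ≤ x → ‖∑ n ∈ Ioc 0 u, cv g h n * (Real.log n : ℂ) * nit t n‖ ≤ ((L + 2) / D) * u := by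
    intro u hu1 hu2
    have hsu : (s : ℝ) ≤ u := by exact_mod_cast hu1
    have hux : (u : ℝ) ≤ x := by exact_mod_cast hu2
    have hu0 : (0 : ℝ) < u := by linarith
    have e1 : ∑ n ∈ Ioc 0 u, cv g h n * (Real.log n : ℂ) * nit t n = ∑ n ∈ Ioc 0 u, (cv g h n * nit t n) * (Real.log n : ℂ) :=
      sum_congr rfl fun n _ => by ring
    rw [e1]
    have hEu : 50 * E * D ≤ u := by nlinarith [mul_pos (by linarith : (0 : ℝ) < E) hD0]
    have hEu' : E ≤ u := by nlinarith [mul_le_mul_of_nonneg_left hD1 (by linarith : (0 : ℝ) ≤ E)]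
    refine (PRX_abel_le (fun n => cv g h n * nit t n) u (by omega) E (1 / D) (by linarith) (by positivity) hF25 hFE hEu').trans ?_
    have hlogu : Real.log u ≤ L := Real.log_le_log hu0 hux
    have e2 : 25 * E ≤ u / D := by
      rw [le_div_iff₀ hD0]
      nlinarith [mul_pos (by linarith : (0 : ℝ) < E) hD0]
    have e3 : 1 / D * u * (Real.log u + 1) ≤ u / D * (L + 1) := by
      rw [one_div_mul_eq_div]
      exact mul_le_mul_of_nonneg_left (by linarith) (by positivity)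
    calc _ ≤ u / D * (L + 1) + u / D := add_le_add e3 e2
      _ = (L + 2) / D * u := by ring
  have hA : ∀ u : ℕ, s ≤ u → u ≤ x → ‖∑ n ∈ Ioc 0 u, cv (mg g) (mg h) n * nit t n‖ ≤ (L / D) * u := by
    intro u hu1 hu2
    have hsu : (s : ℝ) ≤ u := by exact_mod_cast hu1
    have hux : (u : ℝ) ≤ x := by exact_mod_cast hu2
    have hu1' : (1 : ℝ) ≤ u := by linarith
    have hu0 : (0 : ℝ) < u := by linarith
    have hc : (x : ℝ) ≤ (u : ℝ) ^ 3 := by exact_mod_cast hcube u hu1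
    have hlog3 : L ≤ 3 * Real.log u := by
      have := Real.log_le_log hx0 hc
      rw [Real.log_pow] at this
      exact_mod_cast this
    have hlu : L / 3 ≤ Real.log u := by linarith
    have e1 : ∑ n ∈ Ioc 0 u, cv (mg g) (mg h) n * nit t n = ∑ z ∈ FF u, (mue z : ℂ) * Ψ z * nit t (nn z) := by
      rw [← srf1 (fun z => (mue z : ℂ) * Ψ z * nit t (nn z)) u]
      refine sum_congr rfl fun n hn => ?_
      rw [mem_Ioc] at hn
      rw [PRX_rf (fun z => (mue z : ℂ) * Ψ z) t n, hrM n hn.1]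
    have hq' : (q : ℝ) ≤ Real.log u ^ (B + 1) := by
      refine hq.trans ?_
      have f1 : (3 : ℝ) ^ B ≤ Real.log u := by
        rw [pow_succ] at l3
        linarith
      calc L ^ B ≤ (3 * Real.log u) ^ B := pow_le_pow_left₀ hLpos.le hlog3 B
        _ = 3 ^ B * Real.log u ^ B := mul_pow _ _ _
        _ ≤ Real.log u * Real.log u ^ B := mul_le_mul_of_nonneg_right f1 (pow_nonneg (by linarith) B)
        _ = Real.log u ^ (B + 1) := by rw [pow_succ]; ring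
    have hK : (x : ℝ) ^ K ≤ (u : ℝ) ^ (3 * K) := by
      rw [pow_mul]
      exact pow_le_pow_left₀ hx0.le hc K
    rw [e1]
    refine (hM u (hsm.trans hu1) q hq' ξ hξ i₁ i hi₁ hi κ t hinv (hκ.trans hK) (ht.trans hK)).trans ?_
    have f2 : D ≤ L * Real.log u ^ (A + 6) := by
      calc D = L ^ (A + 6) := rfl
        _ ≤ (3 * Real.log u) ^ (A + 6) := pow_le_pow_left₀ hLpos.le hlog3 _
        _ = 3 ^ (A + 6) * Real.log u ^ (A + 6) := mul_pow _ _ _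
        _ ≤ L * Real.log u ^ (A + 6) := mul_le_mul_of_nonneg_right l2 (pow_nonneg (by linarith) _)
    have f3 : 0 < Real.log u ^ (A + 6) := pow_pos (by linarith) _
    rw [div_mul_eq_mul_div, div_le_div_iff₀ f3 hD0]
    calc (u : ℝ) * D ≤ u * (L * Real.log u ^ (A + 6)) := mul_le_mul_of_nonneg_left f2 hu0.le
      _ = L * u * Real.log u ^ (A + 6) := by ring
  have hsum := PRX_sum hLGC g h hg hh t x s hs1 hs2 (by omega) L (L / D) ((L + 2) / D) le_rfl (by positivity) (by positivity) hA hB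
  have hpp := PRX_pp g h hg hh t x hx1
  have hsqrt : √(x : ℝ) = S := by
    rw [← hSS]
    exact Real.sqrt_mul_self hS0.le
  rw [hsqrt] at hpp
  -- the sum over the prime elements
  have hfin : ∑ z ∈ FF x with (nn z).Prime, (Real.log (nn z) : ℂ) * HX ξ i₁ i κ z * nit t (nn z) =
      ∑ p ∈ Ioc 0 x with p.Prime, (Real.log p : ℂ) * (cv g h p * nit t p) := by
    have a1 := srf3 (fun z => Ψ z * nit t (nn z)) x
    unfold FI.PS at a1
    have a2 : ∑ z ∈ FF x with (nn z).Prime, (Real.log (nn z) : ℂ) * HX ξ i₁ i κ z * nit t (nn z) =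
        ∑ z ∈ FF x with (nn z).Prime, (Real.log (nn z) : ℂ) * (Ψ z * nit t (nn z)) :=
      sum_congr rfl fun z _ => by rw [mul_assoc]
    rw [a2, a1]
    refine sum_congr rfl fun p hp => ?_
    rw [mem_filter, mem_Ioc] at hp
    rw [PRX_rf, hrF p hp.1.1]
  rw [hfin]
  have g1 : ‖∑ p ∈ Ioc 0 x with p.Prime, (Real.log p : ℂ) * (cv g h p * nit t p)‖ ≤
      x * (((L + 2) / D) * (1 + L) ^ 2 + L / D * L * (1 + L) ^ 2 + L / D * ((L + 2) / D)) + 4 * S * L := by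
    have := norm_sub_norm_le (∑ p ∈ Ioc 0 x with p.Prime, (Real.log p : ℂ) * (cv g h p * nit t p)) (∑ n ∈ Ioc 0 x, LG g h n * nit t n)
    rw [norm_sub_rev] at this
    linarith
  refine g1.trans ?_
  exact PRX_fin x S E D L A hSS hS0 hE1 hD hD1 hED l1

end Pool.Agent.YB
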